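import Pool.Agent.Lib.MP_cdccbc_an.Upper

/-! The norm of the partial sum operator `S_N` on the Hardy space `H¹` of Dirichlet series has
exact order `log N / log log N`. -/

namespace Pool.Agent.Results.MP_cdccbc_an.OrderH1

open Filter Topology MeasureTheory

/-- The value `f(it) = ∑ a_n n^{-it}` of the Dirichlet polynomial with coefficients `a`. -/
noncomputable def value (a : ℕ+ →₀ ℂ) (t : ℝ) : ℂ :=
  a.sum fun n c => c * ((n : ℕ) : ℂ) ^ (-((t : ℂ) * Complex.I))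

/-- The mean `(1/2T) ∫_{-T}^{T} |f(it)| dt`. -/
noncomputable def mean (a : ℕ+ →₀ ℂ) (T : ℝ) : ℝ :=
  (1 / (2 * T)) * ∫ t in (-T)..T, ‖value a t‖

/-- The `H¹` norm: the limit of the means as `T → ∞`. -/
noncomputable def norm1 (a : ℕ+ →₀ ℂ) : ℝ := limUnder atTop (mean a)

/-- The partial sum `S_N`, which keeps the coefficients `a_n` with `n ≤ N`. -/
noncomputable def partialSum (N : ℕ) (a : ℕ+ →₀ ℂ) : ℕ+ →₀ ℂ :=
  a.filter fun n => (n : ℕ) ≤ N

/-- The norms `‖S_N f‖₁` over Dirichlet polynomials `f` with `‖f‖₁ ≤ 1`. -/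
def values (N : ℕ) : Set ℝ := {r | ∃ a, norm1 a ≤ 1 ∧ r = norm1 (partialSum N a)}

/-- The operator norm `‖S_N‖₁`. -/
noncomputable def opNorm (N : ℕ) : ℝ := sSup (values N)

theorem result :
    (∀ a, Tendsto (mean a) atTop (𝓝 (norm1 a))) ∧ (∀ N, BddAbove (values N)) ∧
      ∃ c C : ℝ, 0 < c ∧ 0 < C ∧ ∃ N₀ : ℕ, ∀ N ≥ N₀,
        c * (Real.log N / Real.log (Real.log N)) ≤ opNorm N ∧
          opNorm N ≤ C * (Real.log N / Real.log (Real.log N)) := by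
  have h1 : ∀ a, Tendsto (mean a) atTop
      (𝓝 (∫ ω, ‖Lib.MP_cdccbc_an.dir a ω‖ ∂Lib.MP_cdccbc_an.mu)) := by
    intro a
    have := Lib.MP_cdccbc_an.tendsto_mean_norm (Lib.MP_cdccbc_an.dir a)
    simp only [Lib.MP_cdccbc_an.dir_flow] at this
    exact this
  have h2 : ∀ a, norm1 a = ∫ ω, ‖Lib.MP_cdccbc_an.dir a ω‖ ∂Lib.MP_cdccbc_an.mu :=
    fun a => (h1 a).limUnder_eq
  have h3 : ∀ N, BddAbove (values N) := by
    intro N
    obtain ⟨C, hC, h⟩ := Lib.MP_cdccbc_an.upper_bdd N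
    refine ⟨C, ?_⟩
    rintro r ⟨a, ha, rfl⟩
    rw [h2] at ha ⊢
    exact le_trans (h a) (mul_le_of_le_one_right hC ha)
  refine ⟨fun a => h2 a ▸ h1 a, h3, 1 / 8192, 2000, by norm_num, by norm_num, ?_⟩
  have h4 : ∀ᶠ N : ℕ in atTop, 32 ≤ Real.log N :=
    (Real.tendsto_log_atTop.comp tendsto_natCast_atTop_atTop).eventually_ge_atTop 32
  obtain ⟨N₀, hN₀⟩ := eventually_atTop.1 h4
  refine ⟨N₀, fun N hN => ⟨?_, ?_⟩⟩
  · obtain ⟨a, ha1, ha2⟩ := Lib.MP_cdccbc_an.lower_final (hN₀ N hN)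
    refine le_trans ?_ (le_csSup (h3 N) ⟨a, by rw [h2, ha1], rfl⟩)
    rw [h2, one_div_mul_eq_div]
    exact ha2
  · have h5 := hN₀ N hN
    have h6 : 0 ≤ 2000 * (Real.log N / Real.log (Real.log N)) :=
      mul_nonneg (by norm_num) (div_nonneg (by linarith) (Real.log_nonneg (by linarith)))
    refine Real.sSup_le ?_ h6
    rintro r ⟨a, ha, rfl⟩
    rw [h2] at ha ⊢
    exact le_trans (Lib.MP_cdccbc_an.upper_final (N := N) (by linarith) a)
      (mul_le_of_le_one_right h6 ha)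

end Pool.Agent.Results.MP_cdccbc_an.OrderH1
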