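import Pool.Agent.Lib.MP_cdccbc_an.InfLower

/-! Explicit two-sided constants for the norm of the partial sum operator `S_N` on the space
`H^∞` of bounded Dirichlet series. -/

namespace Pool.Agent.Results.MP_cdccbc_an.SupNorm

open Filter Topology

/-- The partial sum `∑_{n = 1}^{N} a_n n^{-s}`. -/
noncomputable def partialSum (a : ℕ → ℂ) (N : ℕ) (s : ℂ) : ℂ :=
  ∑ n ∈ Finset.Icc 1 N, a n * (n : ℂ) ^ (-s)

/-- The closed unit ball of `H^∞`: the series converges at each point of the half plane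
`Re s > 0` and its sum has modulus at most `1` there. -/
def InUnitBall (a : ℕ → ℂ) : Prop :=
  ∀ s : ℂ, 0 < s.re → ∃ z : ℂ, ‖z‖ ≤ 1 ∧ Tendsto (fun M => partialSum a M s) atTop (𝓝 z)

/-- The values `|S_N f(s)|` for `f` in the unit ball and `Re s > 0`. -/
def values (N : ℕ) : Set ℝ :=
  {r | ∃ a, InUnitBall a ∧ ∃ s : ℂ, 0 < s.re ∧ r = ‖partialSum a N s‖}

/-- The operator norm of `S_N` on `H^∞`. -/
noncomputable def opNorm (N : ℕ) : ℝ := sSup (values N)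

theorem result :
    (∀ N, BddAbove (values N)) ∧ ∀ ε : ℝ, 0 < ε → ∃ N₀ : ℕ, ∀ N ≥ N₀,
      (1 / (2 * Real.pi) - ε) * Real.log N ≤ opNorm N ∧
        opNorm N ≤ (1 / Real.pi + ε) * Real.log N := by
  have h1 : ∀ N, BddAbove (values N) := by
    intro N
    rcases Nat.eq_zero_or_pos N with rfl | hN
    · refine ⟨0, ?_⟩
      rintro r ⟨a, -, s, -, rfl⟩
      simp [partialSum]
    · refine ⟨∫ ξ, ‖Lib.MP_cdccbc_an.Inf.ker (Real.log N) (Real.log (N + 1) - Real.log N) ξ‖, ?_⟩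
      rintro r ⟨a, ha, s, hs, rfl⟩
      exact Lib.MP_cdccbc_an.Inf.ps_le_integral hs ha hN
  refine ⟨h1, fun ε hε => ?_⟩
  obtain ⟨N₀, hN₀⟩ := eventually_atTop.1 ((Lib.MP_cdccbc_an.Inf.lower_eventually hε).and
    (Lib.MP_cdccbc_an.Inf.upper_eventually hε))
  refine ⟨N₀, fun N hN => ?_⟩
  obtain ⟨⟨a, ha, s, hs, h2⟩, h3⟩ := hN₀ N hN
  refine ⟨h2.trans (le_csSup (h1 N) ⟨a, ha, s, hs, rfl⟩), csSup_le ⟨_, a, ha, s, hs, rfl⟩ ?_⟩
  rintro r ⟨a', ha', s', hs', rfl⟩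
  exact h3 a' ha' s' hs'

end Pool.Agent.Results.MP_cdccbc_an.SupNorm
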